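import Pool.Agent.J4.H13.CZ.Density

/-!
# Numerical and `ℓ`-adic homological equivalence, and the exotic relations between Frobenius eigenvalues

Let `k` be an algebraic closure of the field with `p` elements. Clozel proved that numerical and
`ℓ`-adic homological equivalence coincide on an abelian variety over `k` for the primes `ℓ` in some set
of positive density. Here is a theorem for many more varieties, and with a lower bound for the
density.

Let `X j`, `j ∈ J`, be finitely many varieties over `k`, each of them an abelian variety, or a variety
such as a curve or a K3 surface: D holds for `X j`, and on the transcendental cohomology `T(X j)` (the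
orthogonal complement of the algebraic classes) the Riemann hypothesis of weight `dim X j`, the
semisimplicity of Frobenius and the Tate conjecture for endomorphisms are known. Let `P j` be the
polynomial of Frobenius on `H^1(X j)` or on `T(X j)` (rational, independent of `ℓ`). Let `Y i`,
`i ∈ I`, be finitely many arbitrary varieties over `k`, with the characteristic polynomials `Q i b` of
Frobenius on `H^b(Y i)`.

Let `r` be the number of the linearly independent **relative exotic relations** (`relativeRank`): the
multiplicative relations, up to roots of unity, between the roots of the `P j` and the `Q i b`, with
exponents which change the sign under the complex conjugation, restricted to the roots of the `P j`.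
For instance, if there is no `Y i` and `X` is an abelian variety, then `r` is the number of the pairs
of complex conjugate non-real eigenvalues minus the angle rank.

Theorem. (1) For a set of primes `ℓ` of lower density at least `2 ^ (-r)` numerical and `ℓ`-adic
homological equivalence coincide on the products of the `Y i` if and only if they coincide on all
varieties dominated by products of copies of the `X j` and the `Y i`. (2) If `r = 0` then this is so
for all primes `ℓ ≠ p`.

In particular (no `Y i`): numerical and `ℓ`-adic homological equivalence coincide on all varieties
dominated by products of abelian varieties, curves and K3 surfaces, for a set of primes `ℓ` of lower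
density at least `2 ^ (-r)`. No conjecture is assumed.

The proof: over an algebraic closure of `ℚ_ℓ` the classes of algebraic cycles on the products are
generated by classes attached to the multiplicative relations. The products of the conjugates over
`ℚ_ℓ` of a relation for which the class is not zero is a relation invariant under the Galois group of
`ℚ_ℓ`; if this group has no invariants in the space of the exotic relations, the relation is invariant
under complex conjugation, and the dual of the class is algebraic. By Chebotarev's theorem and a
count of the elements without invariants of a finite group of rational matrices which contains `-1`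
the density of these `ℓ` is at least `2 ^ (-r)`.

`AdicTheories` is the family of the `ℓ`-adic cohomology theories on a class `𝒱` of varieties over `k`
with its algebraic cycles (`ops`), with Frobenius endomorphisms.
-/

set_option autoImplicit false

open CategoryTheory AlgebraicGeometry Polynomial

universe u

namespace Pool.Agent.J4.H13.Attic.ExoticRank

open Pool.Agent.H914 Pool.Agent.Helper11K9.Dens Pool.Agent.J4.H13.CZ

/-- **Numerical and `ℓ`-adic homological equivalence for varieties dominated by products of abelian
varieties, curves, K3 surfaces and arbitrary varieties, for a set of primes of lower density at least
`2 ^ (-r)`, where `r` is the rank of the relative exotic relations, and for all primes if `r = 0`.** -/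
theorem result {k : Type u} [Field k] {𝒱 : VarClass k} {ops : CycleOps 𝒱} {p : ℕ}
    (F : AdicTheories ops p) {J I : Type} [Fintype J] [Fintype I]
    {X : J → 𝒱.Obj} {P : J → ℚ[X]}
    (hX : ∀ j, IsAbelianPiece F (X j) (P j) ∨ IsRichPiece F (X j) (P j))
    {Y : I → 𝒱.Obj} {Q : I → ℕ → ℚ[X]} (hY : ∀ i, HasWeilPolynomials F (Y i) (Q i)) (r : ℕ)
    (hr : r = relativeRank P (fun j => F.e (X j))
      (fun y : Σ i : I, Fin (2 * (Y i).dim + 1) => Q y.1 y.2) (fun y => F.e (Y y.1))) :
    HasLowerDensity {ℓ | NumHomIff (F.W ℓ) (Set.range X) (Set.range Y)} ((1 / 2 : ℝ) ^ r) ∧
    (r = 0 → ∀ (ℓ : ℕ) [Fact ℓ.Prime], ℓ ≠ p →
      NumHomIff (F.W ℓ) (Set.range X) (Set.range Y)) := by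
  subst hr
  exact density_rank F hX hY

end Pool.Agent.J4.H13.Attic.ExoticRank
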