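import Pool.Agent.J4.H13.CZ.GalMain

/-!
# Numerical and `ℓ`-adic homological equivalence for abelian varieties over arbitrary fields

Clozel proved that numerical and `ℓ`-adic homological equivalence coincide on an abelian variety over
a finite field for the primes `ℓ` in a set of positive density. Here is such a theorem over all
finitely generated fields `k₀`, with an explicit set of primes which is large and often contains all
primes, and for products with arbitrary varieties.

Let `X j` be finitely many abelian varieties over `k₀`, of characteristic `p`, and `k` an algebraic
closure of `k₀`. Let `E j` be the algebra of the elements of `End(X j) ⊗ ℚ` (endomorphisms over `k`)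
which commute with all endomorphisms and are defined over `k₀`. It is a product of totally real fields
and CM fields, `E j = ℚ[e]` with `P j (e) = 0`, and `Q j (e)` is its complex conjugate (the Rosati
involution). By the theorems of Tate, Zarhin, Mori and Faltings `H^1(X j)` is semisimple, and the
operators commuting with the endomorphisms and with the Galois group of `k₀` are `E j ⊗ ℚ_ℓ`; these
theorems enter through `IsAbelianWith`. Other varieties are possible, for which this is known for the
transcendental cohomology instead of `H^1` (`IsTransWith`; curves, K3 surfaces over finite fields).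

Theorem. (1) Let `ℓ ≠ p` be a prime such that no prime above `ℓ` of the maximal totally real
subalgebra of `E j` splits in `E j` (`LocallyConjugate`: every root of `P j` is conjugate over `ℚ_ℓ`
to its complex conjugate). Then for every set `𝒴` of varieties numerical and `ℓ`-adic homological
equivalence coincide on the products of members of `𝒴` if and only if they coincide on all varieties
dominated by products of copies of the `X j` and of members of `𝒴` (cycles over `k`).
(2) If the `E j` are totally real then this is so for all `ℓ ≠ p`.
(3) In any case this is so for a set of primes `ℓ` (independent of `𝒴`) of lower density at least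
`2 ^ (-n)`, where `n` is the number of the pairs of complex conjugate non-real roots of the `P j`.

With `𝒴` empty: numerical and `ℓ`-adic homological equivalence coincide on all varieties dominated by
products of the abelian varieties, for these `ℓ`. No conjecture is assumed.

The proof: the complement of a stable subspace `U` of `H^1(X j)` gives a projector commuting with
everything, hence a polynomial in `e`; it is self-adjoint by the condition on `ℓ`, and so `U` is not
isotropic. Then the group of the automorphisms fixing all algebraic classes has no unipotent radical
on the part generated by the `X j`, and all classes there pair perfectly.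
-/

set_option autoImplicit false

open CategoryTheory AlgebraicGeometry Polynomial

universe u

namespace Pool.Agent.J4.H13.Attic.GaloisCentres

open Pool.Agent.H914 Pool.Agent.Helper8K9.AV Pool.Agent.Helper11K9.Dens Pool.Agent.J4.H13.CZ

/-- **Numerical and `ℓ`-adic homological equivalence for varieties dominated by products of abelian
varieties over arbitrary fields with arbitrary varieties: for all primes above which the centres of the
endomorphism algebras do not split, for all primes if the centres are totally real, and for a set of
primes of lower density at least `2 ^ (-n)` in all cases.** -/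
theorem result {k : Type u} [Field k] {𝒱 : VarClass k} {ops : CycleOps 𝒱} {p : ℕ}
    (F : GaloisTheories ops p) {J : Type} [Fintype J] {X : J → 𝒱.Obj} {P Q : J → ℚ[X]}
    (hPQ : ∀ j, IsConjugationPair (P j) (Q j))
    (hX : ∀ j, IsAbelianWith F (X j) (P j) (Q j) ∨ IsTransWith F (X j) (P j) (Q j)) :
    (∀ (ℓ : ℕ) [Fact ℓ.Prime], ℓ ≠ p → (∀ j, LocallyConjugate (F.W ℓ).K (P j) (Q j)) →
      ∀ 𝒴 : Set 𝒱.Obj, NumHomIff (F.W ℓ) (Set.range X) 𝒴) ∧
    ((∀ j, ∀ z : ℂ, aeval z (P j) = 0 → z.im = 0) → ∀ (ℓ : ℕ) [Fact ℓ.Prime], ℓ ≠ p →
      ∀ 𝒴 : Set 𝒱.Obj, NumHomIff (F.W ℓ) (Set.range X) 𝒴) ∧
    HasLowerDensity {ℓ | ∀ 𝒴 : Set 𝒱.Obj, NumHomIff (F.W ℓ) (Set.range X) 𝒴}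
      ((1 / 2 : ℝ) ^ pairNumber P) :=
  ⟨fun ℓ _ hℓ hloc 𝒴 => numHomIff_of_local F hPQ hX ℓ hℓ hloc 𝒴,
    fun hre ℓ _ hℓ 𝒴 => numHomIff_of_local F hPQ hX ℓ hℓ
      (fun j => local_of_real (hPQ j) (hre j) _) 𝒴,
    density_local F hPQ hX⟩

end Pool.Agent.J4.H13.Attic.GaloisCentres
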